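import Mathlib
import Pool.Agent.W_MP_944d6d_mp.Defs
import Pool.Agent.W_MP_944d6d_mp.Main

set_option autoImplicit false

namespace Pool.Agent.Results.MP_944d6d_mp.AllReversibleTrivial

open Pool.Agent.W_MP_944d6d_mp

/-- In every dimension `d ≥ 1`, every reversible number-conserving cellular automaton with the
states `0, 1, 2` and the von Neumann neighborhood is the identity or a shift by `±e_i`. -/
theorem result : ∀ d : ℕ, 1 ≤ d → ∀ F : Config d → Config d,
    IsNeumannCA F → NumberConserving F → Function.Bijective F →
      (∀ (x : Config d) (v : Fin d → ℤ), F x v = x v) ∨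
      ∃ i : Fin d,
        (∀ (x : Config d) (v : Fin d → ℤ), F x v = x (v + Pi.single i 1)) ∨
        (∀ (x : Config d) (v : Fin d → ℤ), F x v = x (v - Pi.single i 1)) := by
  intro d hd F hF hNC hbij
  obtain ⟨u, hu, h⟩ := main hd hF hNC hbij.1
  by_cases h0 : u = 0
  · left
    intro x v
    rw [h x v, h0, add_zero]
  · right
    obtain ⟨i, hi⟩ := exists_ne h0
    refine ⟨i, ?_⟩
    have hb := abs_le.1 (abs_le_one_of_mem hu i)
    have h3 : u i = 1 ∨ u i = -1 := by omega
    rcases h3 with h3 | h3
    · left
      intro x v
      have : u = Pi.single i 1 :=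
        eq_of_coord hu (single_mem_neumann i (by norm_num)) hi (by rw [h3]; simp)
      rw [h x v, this]
    · right
      intro x v
      have : u = Pi.single i (-1) :=
        eq_of_coord hu (single_mem_neumann i (by norm_num)) hi (by rw [h3]; simp)
      rw [h x v, this, Pi.single_neg, sub_eq_add_neg]

end Pool.Agent.Results.MP_944d6d_mp.AllReversibleTrivial
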